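import Pool.Agent.Helper510.MB.Cplx
import Pool.Prelude.Def_F_c31e40fa

set_option autoImplicit false

namespace Pool.Agent.Helper510.MB

open Filter Metric MeasureTheory Topology
open N62a1eb23

lemma mem_multi (n : ℕ) (c : ℂ) : c ∈ multibrotSet n ↔
    ¬ Tendsto (fun k : ℕ => ‖(fun z : ℂ => z ^ n + c)^[k] 0‖) atTop atTop := by
  unfold multibrotSet
  simp only [Set.mem_setOf_eq]
  rw [← tendsto_norm_atTop_iff_cobounded]

/-- outer radius -/
noncomputable def outR (n : ℕ) : ℝ := (2 : ℝ) ^ ((1 : ℝ) / (n - 1))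
/-- inner radius -/
noncomputable def innR (n : ℕ) : ℝ := (n : ℝ) ^ (-(1 : ℝ) / (n - 1)) * (1 - 1 / n)

lemma multi_sub (n : ℕ) (hn : 2 ≤ n) : multibrotSet n ⊆ closedBall 0 (outR n) := by
  intro c hc
  rw [mem_multi] at hc
  have h1 : ‖c‖ ^ (n - 1) ≤ 2 := by
    by_contra h
    exact hc (mb_escape n hn c (not_le.1 h))
  rw [mem_closedBall, dist_zero_right]
  unfold outR
  have hn1 : ((n - 1 : ℕ) : ℝ) = (n : ℝ) - 1 := by
    rw [Nat.cast_sub (by omega)]; simp
  have h2 : ‖c‖ = (‖c‖ ^ (n - 1)) ^ ((1 : ℝ) / (n - 1)) := by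
    rw [← Real.rpow_natCast, ← Real.rpow_mul (norm_nonneg _), hn1]
    have : (n : ℝ) - 1 ≠ 0 := by
      have : (2 : ℝ) ≤ n := by exact_mod_cast hn
      linarith
    rw [mul_one_div_cancel this, Real.rpow_one]
  rw [h2]
  apply Real.rpow_le_rpow (by positivity) h1
  have : (2 : ℝ) ≤ n := by exact_mod_cast hn
  have : 0 < (n : ℝ) - 1 := by linarith
  positivity

lemma ball_sub (n : ℕ) (hn : 2 ≤ n) : ball 0 (innR n) ⊆ multibrotSet n := by
  intro c hc
  rw [mem_multi]
  rw [mem_ball, dist_zero_right] at hc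
  have hn2 : (2 : ℝ) ≤ n := by exact_mod_cast hn
  have hn0 : (0 : ℝ) < n := by linarith
  have hn1 : ((n - 1 : ℕ) : ℝ) = (n : ℝ) - 1 := by
    rw [Nat.cast_sub (by omega)]; simp
  have hne : (n : ℝ) - 1 ≠ 0 := by linarith
  have hpow : ((n : ℝ) ^ (-(1 : ℝ) / (n - 1))) ^ (n - 1) = 1 / n := by
    rw [← Real.rpow_natCast, ← Real.rpow_mul hn0.le, hn1, div_mul_cancel₀ _ hne,
      Real.rpow_neg_one, one_div]
  apply mb_inner n hn ((n : ℝ) ^ (-(1 : ℝ) / (n - 1))) (by positivity)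
  · rw [hpow]; field_simp; exact le_refl _
  · have h3 : ((n : ℝ) ^ (-(1 : ℝ) / (n - 1))) ^ n =
        ((n : ℝ) ^ (-(1 : ℝ) / (n - 1))) * (1 / n) := by
      rw [← hpow, ← pow_succ']
      congr 1; omega
    rw [h3]
    unfold innR at hc
    linarith

lemma innR_nonneg (n : ℕ) (hn : 2 ≤ n) : 0 ≤ innR n := by
  unfold innR
  have hn2 : (2 : ℝ) ≤ n := by exact_mod_cast hn
  have : 1 / (n : ℝ) ≤ 1 := by rw [div_le_one (by linarith)]; linarith
  have h : 0 ≤ 1 - 1 / (n : ℝ) := by linarith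
  positivity

lemma frontier_sub (n : ℕ) (hn : 2 ≤ n) :
    frontier (multibrotSet n) ⊆ closedBall 0 (outR n) \ ball 0 (innR n) := by
  intro c hc
  refine ⟨closure_minimal (multi_sub n hn) isClosed_closedBall hc.1, fun h => hc.2 ?_⟩
  exact interior_maximal (ball_sub n hn) isOpen_ball h

lemma outR_nonneg (n : ℕ) : 0 ≤ outR n := by unfold outR; positivity

lemma inn_le_out (n : ℕ) (hn : 2 ≤ n) : innR n ≤ outR n := by
  have hn2 : (2 : ℝ) ≤ n := by exact_mod_cast hn
  have h1 : (1 : ℝ) ≤ outR n := by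
    unfold outR
    apply Real.one_le_rpow (by norm_num)
    have : 0 < (n : ℝ) - 1 := by linarith
    positivity
  have h2 : innR n ≤ 1 := by
    unfold innR
    have a1 : (n : ℝ) ^ (-(1 : ℝ) / (n - 1)) ≤ 1 := by
      apply Real.rpow_le_one_of_one_le_of_nonpos (by linarith)
      apply div_nonpos_of_nonpos_of_nonneg <;> linarith
    have a2 : 1 - 1 / (n : ℝ) ≤ 1 := by
      have : 0 ≤ 1 / (n : ℝ) := by positivity
      linarith
    have a3 : 0 ≤ 1 - 1 / (n : ℝ) := by
      have : 1 / (n : ℝ) ≤ 1 := by rw [div_le_one (by linarith)]; linarith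
      linarith
    calc (n : ℝ) ^ (-(1 : ℝ) / (n - 1)) * (1 - 1 / n) ≤ 1 * 1 := by
          apply mul_le_mul a1 a2 a3 zero_le_one
      _ = 1 := one_mul 1
  linarith

theorem area_bound (n : ℕ) (hn : 2 ≤ n) :
    volume (frontier (multibrotSet n)) ≤ ENNReal.ofReal (Real.pi * (outR n ^ 2 - innR n ^ 2)) := by
  refine (measure_mono (frontier_sub n hn)).trans ?_
  have hsub : ball (0 : ℂ) (innR n) ⊆ closedBall 0 (outR n) :=
    ball_subset_closedBall.trans (closedBall_subset_closedBall (inn_le_out n hn))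
  rw [measure_diff hsub measurableSet_ball.nullMeasurableSet (by
    rw [Complex.volume_ball]; exact ENNReal.mul_ne_top (by simp) (by simp))]
  rw [Complex.volume_ball, Complex.volume_closedBall]
  rw [mul_sub, ENNReal.ofReal_sub _ (by positivity)]
  apply le_of_eq
  congr 1
  · rw [mul_comm Real.pi, ENNReal.ofReal_mul (by positivity), ENNReal.ofReal_pow (outR_nonneg n)]
    congr 1
    rw [← ENNReal.ofReal_coe_nnreal]; rfl
  · rw [mul_comm Real.pi, ENNReal.ofReal_mul (by positivity), ENNReal.ofReal_pow (innR_nonneg n hn)]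
    congr 1
    rw [← ENNReal.ofReal_coe_nnreal]; rfl



end Pool.Agent.Helper510.MB
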