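import Mathlib

set_option autoImplicit false

namespace Pool.Agent.Helper510.MB

section
theorem mb_C_val (n : ℕ) (hn : 2 ≤ n) (a : ℝ) (c : ℂ) (hc : c ^ (n - 1) = -(a : ℂ)) (u v : ℝ)
    (h : v = 1 - a * u ^ n) : (c * (u : ℂ)) ^ n + c = c * (v : ℂ) := by
  have hcn : c ^ n = c * (-(a : ℂ)) := by
    rw [← hc, ← pow_succ']
    congr 1
    omega
  have hv : (v : ℂ) = 1 - (a : ℂ) * (u : ℂ) ^ n := by
    rw [h]; push_cast; ring
  rw [mul_pow, hcn, hv]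
  ring
theorem mb_C_der (n : ℕ) (hn : 2 ≤ n) (a : ℝ) (c : ℂ) (hc : c ^ (n - 1) = -(a : ℂ)) (u : ℝ) :
    HasDerivAt (fun w : ℂ => w ^ n + c) (-((n * a * u ^ (n - 1) : ℝ) : ℂ)) (c * (u : ℂ)) := by
  have e : -((n * a * u ^ (n - 1) : ℝ) : ℂ) = (n : ℂ) * (c * (u : ℂ)) ^ (n - 1) := by
    rw [mul_pow, hc]
    push_cast
    ring
  rw [e]
  exact (hasDerivAt_pow n (c * (u : ℂ))).add_const c
theorem mb_C1 (n : ℕ) (hn : 2 ≤ n) (a : ℝ) (c : ℂ) (hc : c ^ (n - 1) = -(a : ℂ)) (w : ℝ)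
    (h : w = 1 - a * w ^ n) (hw : 0 ≤ n * a * w ^ (n - 1)) (hm : n * a * w ^ (n - 1) < 1) :
    ∃ z : ℂ, ∃ k : ℕ, 0 < k ∧ (fun w : ℂ => w ^ n + c)^[k] z = z ∧
      ‖deriv ((fun w : ℂ => w ^ n + c)^[k]) z‖ < 1 := by
  refine ⟨c * (w : ℂ), 1, one_pos, ?_, ?_⟩
  · rw [Function.iterate_one]
    exact mb_C_val n hn a c hc w w h
  · rw [Function.iterate_one, (mb_C_der n hn a c hc w).deriv, norm_neg, Complex.norm_real,
      Real.norm_of_nonneg hw]
    exact hm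
theorem mb_C2 (n : ℕ) (hn : 2 ≤ n) (a : ℝ) (c : ℂ) (hc : c ^ (n - 1) = -(a : ℂ)) (w1 w2 : ℝ)
    (e2 : w2 = 1 - a * w1 ^ n) (e1 : w1 = 1 - a * w2 ^ n)
    (hw : 0 ≤ (n * a * w1 ^ (n - 1)) * (n * a * w2 ^ (n - 1)))
    (hm : (n * a * w1 ^ (n - 1)) * (n * a * w2 ^ (n - 1)) < 1) :
    ∃ z : ℂ, ∃ k : ℕ, 0 < k ∧ (fun w : ℂ => w ^ n + c)^[k] z = z ∧
      ‖deriv ((fun w : ℂ => w ^ n + c)^[k]) z‖ < 1 := by
  have v1 := mb_C_val n hn a c hc w1 w2 e2
  have v2 := mb_C_val n hn a c hc w2 w1 e1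
  have d1 := mb_C_der n hn a c hc w1
  have d2 := mb_C_der n hn a c hc w2
  have hit : (fun w : ℂ => w ^ n + c)^[2] = (fun w : ℂ => w ^ n + c) ∘ (fun w : ℂ => w ^ n + c) := rfl
  refine ⟨c * (w1 : ℂ), 2, two_pos, ?_, ?_⟩
  · rw [hit]
    show ((c * (w1 : ℂ)) ^ n + c) ^ n + c = c * (w1 : ℂ)
    rw [v1, v2]
  · rw [hit]
    have d2' : HasDerivAt (fun w : ℂ => w ^ n + c) (-((n * a * w2 ^ (n - 1) : ℝ) : ℂ))
        ((fun w : ℂ => w ^ n + c) (c * (w1 : ℂ))) := by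
      show HasDerivAt _ _ ((c * (w1 : ℂ)) ^ n + c)
      rw [v1]
      exact d2
    have d := HasDerivAt.comp (c * (w1 : ℂ)) d2' d1
    rw [d.deriv, neg_mul_neg, ← Complex.ofReal_mul, Complex.norm_real,
      Real.norm_of_nonneg (by linarith [mul_comm (n * a * w1 ^ (n - 1)) (n * a * w2 ^ (n - 1))])]
    linarith [mul_comm (n * a * w1 ^ (n - 1)) (n * a * w2 ^ (n - 1))]

end

section
open Filter
/-- escape outside the disc -/
theorem mb_escape (n : ℕ) (hn : 2 ≤ n) (c : ℂ) (hc : 2 < ‖c‖ ^ (n - 1)) :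
    Tendsto (fun k : ℕ => ‖(fun z : ℂ => z ^ n + c)^[k] 0‖) atTop atTop := by
  have hr1 : 1 < ‖c‖ := by
    by_contra h
    push Not at h
    have := pow_le_one₀ (n := n - 1) (norm_nonneg c) h
    linarith
  have hq : 1 < ‖c‖ ^ (n - 1) - 1 := by linarith
  have key : ∀ k : ℕ, ‖c‖ * (‖c‖ ^ (n - 1) - 1) ^ k ≤ ‖(fun z : ℂ => z ^ n + c)^[k + 1] 0‖ := by
    intro k
    induction k with
    | zero =>
      have h0 : (0 : ℂ) ^ n = 0 := zero_pow (by omega)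
      simp [h0]
    | succ k ih =>
      rw [Function.iterate_succ_apply']
      obtain ⟨z, hz⟩ : ∃ z, z = (fun z : ℂ => z ^ n + c)^[k + 1] 0 := ⟨_, rfl⟩
      rw [← hz] at ih ⊢
      have h1 : (1 : ℝ) ≤ (‖c‖ ^ (n - 1) - 1) ^ k := one_le_pow₀ hq.le
      have hzr : ‖c‖ ≤ ‖z‖ := by nlinarith
      have h2 : ‖z‖ ^ n - ‖c‖ ≤ ‖z ^ n + c‖ := by
        have := norm_sub_le (z ^ n + c) c
        rw [add_sub_cancel_right, norm_pow] at this
        linarith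
      have h3 : ‖z‖ ^ n = ‖z‖ * ‖z‖ ^ (n - 1) := by
        rw [← pow_succ']
        congr 1
        omega
      have h4 : ‖c‖ ^ (n - 1) ≤ ‖z‖ ^ (n - 1) := pow_le_pow_left₀ (norm_nonneg c) hzr _
      have h5 : ‖z‖ * (‖c‖ ^ (n - 1) - 1) ≤ ‖z‖ ^ n - ‖c‖ := by
        rw [h3]
        have : ‖z‖ * ‖c‖ ^ (n - 1) ≤ ‖z‖ * ‖z‖ ^ (n - 1) :=
          mul_le_mul_of_nonneg_left h4 (norm_nonneg z)
        linarith
      calc ‖c‖ * (‖c‖ ^ (n - 1) - 1) ^ (k + 1)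
          = ‖c‖ * (‖c‖ ^ (n - 1) - 1) ^ k * (‖c‖ ^ (n - 1) - 1) := by ring
        _ ≤ ‖z‖ * (‖c‖ ^ (n - 1) - 1) := mul_le_mul_of_nonneg_right ih (by linarith)
        _ ≤ ‖z‖ ^ n - ‖c‖ := h5
        _ ≤ _ := h2
  rw [← tendsto_add_atTop_iff_nat 1]
  exact tendsto_atTop_mono key
    ((tendsto_pow_atTop_atTop_of_one_lt hq).const_mul_atTop (by linarith))

end

section
/-- every point of the disc is close to a spoke -/
theorem mb_spoke (n : ℕ) (hn : 2 ≤ n) (c : ℂ) (hc : ‖c‖ ^ (n - 1) ≤ 2) :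
    ∃ ζ : ℂ, ζ ^ (n - 1) = -1 ∧ ‖c - (min ‖c‖ 1 : ℝ) * ζ‖ ≤ (Real.pi + 1) / (n - 1) := by
  obtain ⟨m, hm⟩ : ∃ m : ℕ, m = n - 1 := ⟨_, rfl⟩
  have hm1 : 1 ≤ m := by omega
  have hmr : ((n : ℝ) - 1) = m := by
    rw [hm, Nat.cast_sub (by omega), Nat.cast_one]
  have hmpos : (0 : ℝ) < m := by exact_mod_cast hm1
  rw [hmr]
  rw [← hm] at hc ⊢
  have hpi := Real.pi_pos
  obtain ⟨t, ht⟩ : ∃ t : ℝ, t = Complex.arg c := ⟨_, rfl⟩
  obtain ⟨r, hr⟩ : ∃ r : ℝ, r = ‖c‖ := ⟨_, rfl⟩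
  have hr0 : 0 ≤ r := by rw [hr]; exact norm_nonneg _
  have hce : (r : ℂ) * Complex.exp (t * Complex.I) = c := by
    rw [hr, ht]; exact Complex.norm_mul_exp_arg_mul_I c
  obtain ⟨k, hk⟩ : ∃ k : ℤ, k = round ((t * m / Real.pi - 1) / 2) := ⟨_, rfl⟩
  have h1 : |(t * m / Real.pi - 1) / 2 - k| ≤ 1 / 2 := by rw [hk]; exact abs_sub_round _
  obtain ⟨θ, hθ⟩ : ∃ θ : ℝ, θ = Real.pi * (2 * k + 1) / m := ⟨_, rfl⟩
  have h2 : |t - θ| ≤ Real.pi / m := by
    have h3 : t - θ = ((t * m / Real.pi - 1) / 2 - k) * (2 * (Real.pi / m)) := by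
      rw [hθ]; field_simp; ring
    rw [h3, abs_mul, abs_of_pos (by positivity : 0 < 2 * (Real.pi / m))]
    calc |(t * m / Real.pi - 1) / 2 - k| * (2 * (Real.pi / m)) ≤ 1 / 2 * (2 * (Real.pi / m)) :=
          mul_le_mul_of_nonneg_right h1 (by positivity)
      _ = Real.pi / m := by ring
  refine ⟨Complex.exp (θ * Complex.I), ?_, ?_⟩
  · rw [← Complex.exp_nat_mul]
    have h3 : ((m : ℕ) : ℂ) * ((θ : ℂ) * Complex.I) =
        Real.pi * Complex.I + k * (2 * Real.pi * Complex.I) := by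
      have h4 : (m : ℝ) * θ = Real.pi * (2 * k + 1) := by rw [hθ]; field_simp
      have h5 : ((m : ℕ) : ℂ) * (θ : ℂ) = Real.pi * (2 * k + 1) := by
        have := congrArg (fun x : ℝ => (x : ℂ)) h4
        push_cast at this
        exact this
      rw [← mul_assoc, h5]
      ring
    rw [h3, Complex.exp_add, Complex.exp_pi_mul_I, Complex.exp_int_mul_two_pi_mul_I, mul_one]
  · have hchord : ‖Complex.exp (t * Complex.I) - Complex.exp (θ * Complex.I)‖ ≤ |t - θ| := by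
      have h3 : Complex.exp (t * Complex.I) - Complex.exp (θ * Complex.I) =
          Complex.exp (θ * Complex.I) * (Complex.exp (Complex.I * ((t - θ : ℝ) : ℂ)) - 1) := by
        rw [mul_sub, mul_one, ← Complex.exp_add]
        congr 2
        push_cast
        ring
      rw [h3, norm_mul, Complex.norm_exp_ofReal_mul_I, one_mul]
      exact Real.norm_exp_I_mul_ofReal_sub_one_le
    rw [← hr]
    have hmin0 : 0 ≤ min r 1 := le_min hr0 zero_le_one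
    have hmin1 : min r 1 ≤ 1 := min_le_right _ _
    have hminr : 0 ≤ r - min r 1 := by
      have := min_le_left r 1
      linarith
    have hdec : c - (min r 1 : ℝ) * Complex.exp (θ * Complex.I) =
        ((r - min r 1 : ℝ) : ℂ) * Complex.exp (t * Complex.I) +
        ((min r 1 : ℝ) : ℂ) * (Complex.exp (t * Complex.I) - Complex.exp (θ * Complex.I)) := by
      rw [← hce]
      push_cast
      ring
    have hb : r - min r 1 ≤ 1 / m := by
      rcases le_total r 1 with h | h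
      · rw [min_eq_left h, sub_self]; positivity
      · rw [min_eq_right h, le_div_iff₀ hmpos]
        have h3 := one_add_mul_le_pow (by linarith : (-2 : ℝ) ≤ r - 1) m
        have h4 : (1 + (r - 1)) ^ m ≤ 2 := by
          rw [add_sub_cancel, hr]; exact hc
        linarith
    rw [hdec]
    refine (norm_add_le _ _).trans ?_
    rw [norm_mul, norm_mul, Complex.norm_exp_ofReal_mul_I, mul_one, Complex.norm_real,
      Complex.norm_real, Real.norm_eq_abs, Real.norm_eq_abs, abs_of_nonneg hminr,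
      abs_of_nonneg hmin0]
    have h5 : min r 1 * ‖Complex.exp (t * Complex.I) - Complex.exp (θ * Complex.I)‖ ≤
        1 * (Real.pi / m) :=
      mul_le_mul hmin1 (hchord.trans h2) (norm_nonneg _) zero_le_one
    have h6 : (Real.pi + 1) / m = Real.pi / m + 1 / m := by ring
    rw [h6]
    linarith

end

section
open Filter
/-- parameters in the inner disc have bounded critical orbit -/
theorem mb_inner (n : ℕ) (hn : 2 ≤ n) (ρ : ℝ) (hρ : 0 < ρ) (hρn : (n : ℝ) * ρ ^ (n - 1) ≤ 1) (c : ℂ)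
    (hc : ‖c‖ ≤ ρ - ρ ^ n) :
    ¬ Tendsto (fun k : ℕ => ‖(fun z : ℂ => z ^ n + c)^[k] 0‖) atTop atTop := by
  intro h
  have hb : ∀ k : ℕ, ‖(fun z : ℂ => z ^ n + c)^[k] 0‖ ≤ ρ := by
    intro k
    induction k with
    | zero => simpa using hρ.le
    | succ k ih =>
      rw [Function.iterate_succ_apply']
      calc ‖((fun z : ℂ => z ^ n + c)^[k] 0) ^ n + c‖
          ≤ ‖((fun z : ℂ => z ^ n + c)^[k] 0) ^ n‖ + ‖c‖ := norm_add_le _ _
        _ ≤ ρ ^ n + (ρ - ρ ^ n) := by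
            apply add_le_add _ hc
            rw [norm_pow]
            exact pow_le_pow_left₀ (norm_nonneg _) ih n
        _ = ρ := by ring
  obtain ⟨k, hk⟩ := (h.eventually (eventually_gt_atTop ρ)).exists
  exact absurd (hb k) (not_le.2 hk)

end


end Pool.Agent.Helper510.MB
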