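import Pool.Agent.Helper510.MB.Real
import Pool.Agent.Helper510.MB.Cplx

set_option autoImplicit false

namespace Pool.Agent.Helper510.MB

open Filter

/-- parameters with an attracting cycle -/
def HypPar (n : ℕ) : Set ℂ := {c | ∃ z : ℂ, ∃ k : ℕ, 0 < k ∧ (fun w : ℂ => w ^ n + c)^[k] z = z ∧
      ‖deriv ((fun w : ℂ => w ^ n + c)^[k]) z‖ < 1}

theorem mb_hyp (n : ℕ) (hn : 2 ≤ n) (a : ℝ) (ha : 0 < a) (ha1 : a ≤ 1)
    (hne : a * (n / (n + 1) : ℝ) ^ n ≠ 1 / (n + 1)) (c : ℂ) (hc : c ^ (n - 1) = -(a : ℂ)) :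
    c ∈ HypPar n := by
  rcases mb_dich n hn a ha ha1 with ⟨w, hw, hw1, e, hm⟩ | ⟨w1, w2, h1, h12, h2, e2, e1⟩ | h
  · exact mb_C1 n hn a c hc w e (by positivity) hm
  · have h0 : 0 ≤ w2 := h1.trans h12.le
    exact mb_C2 n hn a c hc w1 w2 e2 e1 (by positivity) (mb_mult n hn a w1 w2 ha h1 h12 h2 e2 e1)
  · exact absurd h hne

theorem mb_zero (n : ℕ) (hn : 2 ≤ n) : (0 : ℂ) ∈ HypPar n := by
  refine ⟨0, 1, one_pos, ?_, ?_⟩
  · simp; omega
  · have : deriv (fun w : ℂ => w ^ n) 0 = 0 := by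
      simp; right; omega
    simp only [Function.iterate_one, add_zero]
    rw [this]; simp

theorem mb_spokes_closure (n : ℕ) (hn : 2 ≤ n) (a : ℝ) (ha : 0 ≤ a) (ha1 : a ≤ 1) (c : ℂ)
    (hc : c ^ (n - 1) = -(a : ℂ)) (ε : ℝ) (hε : 0 < ε) : ∃ c' ∈ HypPar n, dist c' c < ε := by
  by_cases h0 : c = 0
  · exact ⟨0, mb_zero n hn, by rw [h0]; simpa using hε⟩
  have ha0 : 0 < a := by
    rcases ha.lt_or_eq with h | h
    · exact h
    · exfalso
      rw [← h] at hc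
      simp only [Complex.ofReal_zero, neg_zero] at hc
      exact h0 (pow_eq_zero_iff (by omega) |>.1 hc)
  by_cases hne : a * (n / (n + 1) : ℝ) ^ n ≠ 1 / (n + 1)
  · exact ⟨c, mb_hyp n hn a ha0 ha1 hne c hc, by simpa using hε⟩
  · push Not at hne
    set δ : ℝ := min (1/2) (ε / (2 * (‖c‖ + 1))) with hδ
    have hc1 : 0 < ‖c‖ + 1 := by positivity
    have hδ0 : 0 < δ := lt_min (by norm_num) (by positivity)
    have hδ1 : δ ≤ 1/2 := min_le_left _ _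
    have hδ2 : δ ≤ ε / (2 * (‖c‖ + 1)) := min_le_right _ _
    have hs : 0 < 1 - δ := by linarith
    have hs1 : 1 - δ < 1 := by linarith
    have hp : (1 - δ) ^ (n - 1) < 1 := pow_lt_one₀ hs.le hs1 (by omega)
    have hp0 : 0 < (1 - δ) ^ (n - 1) := by positivity
    have hκ : (0 : ℝ) < (n / (n + 1) : ℝ) ^ n := by
      have : (0 : ℝ) < n := by exact_mod_cast (by omega : 0 < n)
      positivity
    refine ⟨((1 - δ : ℝ) : ℂ) * c, mb_hyp n hn ((1 - δ) ^ (n - 1) * a) (by positivity)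
      (by nlinarith) ?_ _ ?_, ?_⟩
    · intro h
      have : (1 - δ) ^ (n - 1) * a * (n / (n + 1) : ℝ) ^ n < a * (n / (n + 1) : ℝ) ^ n := by
        have : (1 - δ) ^ (n - 1) * (a * (n / (n + 1) : ℝ) ^ n) < 1 * (a * (n / (n + 1) : ℝ) ^ n) :=
          mul_lt_mul_of_pos_right hp (by positivity)
        linarith
      linarith
    · rw [mul_pow, hc]; push_cast; ring
    · rw [dist_eq_norm]
      have : ((1 - δ : ℝ) : ℂ) * c - c = ((-δ : ℝ) : ℂ) * c := by push_cast; ring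
      rw [this, norm_mul, Complex.norm_real, Real.norm_eq_abs, abs_neg, abs_of_pos hδ0]
      calc δ * ‖c‖ ≤ (ε / (2 * (‖c‖ + 1))) * ‖c‖ := mul_le_mul_of_nonneg_right hδ2 (norm_nonneg _)
        _ ≤ (ε / (2 * (‖c‖ + 1))) * (‖c‖ + 1) := by
            apply mul_le_mul_of_nonneg_left _ (by positivity); linarith
        _ = ε / 2 := by field_simp
        _ < ε := by linarith

theorem mb_near (n : ℕ) (hn : 2 ≤ n) (c : ℂ)
    (hM : ¬ Tendsto (fun k : ℕ => ‖(fun z : ℂ => z ^ n + c)^[k] 0‖) atTop atTop)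
    (ε : ℝ) (hε : 0 < ε) : ∃ c' ∈ HypPar n, dist c' c < (Real.pi + 1) / (n - 1) + ε := by
  have hc : ‖c‖ ^ (n - 1) ≤ 2 := by
    by_contra h
    exact hM (mb_escape n hn c (not_le.1 h))
  obtain ⟨ζ, hζ, hd⟩ := mb_spoke n hn c hc
  set r : ℝ := min ‖c‖ 1 with hr
  have hr0 : 0 ≤ r := le_min (norm_nonneg _) zero_le_one
  have hr1 : r ≤ 1 := min_le_right _ _
  obtain ⟨c', hc', hd'⟩ := mb_spokes_closure n hn (r ^ (n - 1)) (by positivity)
    (pow_le_one₀ hr0 hr1) ((r : ℂ) * ζ) (by rw [mul_pow, hζ]; push_cast; ring) ε hε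
  refine ⟨c', hc', ?_⟩
  have h1 : dist ((r : ℂ) * ζ) c ≤ (Real.pi + 1) / (n - 1) := by
    rw [dist_comm, dist_eq_norm]; exact hd
  calc dist c' c ≤ dist c' ((r : ℂ) * ζ) + dist ((r : ℂ) * ζ) c := dist_triangle _ _ _
    _ < (Real.pi + 1) / (n - 1) + ε := by linarith


end Pool.Agent.Helper510.MB
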