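import Pool.Agent.Helper510.MB.Area

set_option autoImplicit false

namespace Pool.Agent.Helper510.MB

open Filter Topology

theorem mb_lim_out (n : ℕ) (hn : 3 ≤ n) :
    1 ≤ outR n ^ 2 ∧ outR n ^ 2 ≤ 1 + 8 * Real.log 2 / ((n : ℝ) - 1) := by
  have hn' : (3 : ℝ) ≤ n := by exact_mod_cast hn
  have hm : (2 : ℝ) ≤ (n : ℝ) - 1 := by linarith
  set m : ℝ := (n : ℝ) - 1 with hmdef
  have hl0 : 0 < Real.log 2 := Real.log_pos (by norm_num)
  have hl2 : Real.log 2 < 0.6931471808 := Real.log_two_lt_d9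
  have ho : outR n ^ 2 = Real.exp (2 * Real.log 2 / m) := by
    unfold outR
    rw [Real.rpow_def_of_pos two_pos, ← Real.exp_nat_mul, ← hmdef]
    congr 1
    push_cast; ring
  set x : ℝ := 2 * Real.log 2 / m with hx
  have hx0 : 0 ≤ x := by positivity
  have hx1 : x ≤ 3 / 4 := by
    rw [hx, div_le_iff₀ (by linarith)]
    nlinarith
  rw [ho]
  constructor
  · exact Real.one_le_exp hx0
  · have h1 : 1 - x ≤ Real.exp (-x) := Real.one_sub_le_exp_neg x
    have h2 : 0 < 1 - x := by linarith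
    have h3 : Real.exp x * Real.exp (-x) = 1 := by rw [← Real.exp_add]; simp
    have h4 : Real.exp x * (1 - x) ≤ 1 :=
      (mul_le_mul_of_nonneg_left h1 (Real.exp_pos x).le).trans h3.le
    have h5 : (1 : ℝ) ≤ (1 + 4 * x) * (1 - x) := by nlinarith
    have h6 : Real.exp x * (1 - x) ≤ (1 + 4 * x) * (1 - x) := h4.trans h5
    have h7 : Real.exp x ≤ 1 + 4 * x := le_of_mul_le_mul_right h6 h2
    have h8 : 1 + 4 * x = 1 + 8 * Real.log 2 / m := by rw [hx]; ring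
    linarith

theorem mb_lim_inn (n : ℕ) (hn : 3 ≤ n) :
    innR n ^ 2 ≤ 1 ∧ 1 - (2 * Real.log n + 2) / ((n : ℝ) - 1) ≤ innR n ^ 2 := by
  have hn' : (3 : ℝ) ≤ n := by exact_mod_cast hn
  have hm : (2 : ℝ) ≤ (n : ℝ) - 1 := by linarith
  have hL : 0 ≤ Real.log n := Real.log_nonneg (by linarith)
  have hm0 : 0 < (n : ℝ) - 1 := by linarith
  have hn0 : 0 < (n : ℝ) := by linarith
  have ha : ((n : ℝ) ^ (-(1 : ℝ) / (n - 1))) ^ 2 = Real.exp (-(2 * Real.log n / ((n : ℝ) - 1))) := by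
    rw [Real.rpow_def_of_pos hn0, ← Real.exp_nat_mul]
    congr 1
    push_cast; ring
  have hin : innR n ^ 2 = Real.exp (-(2 * Real.log n / ((n : ℝ) - 1))) * (1 - 1 / n) ^ 2 := by
    unfold innR
    rw [mul_pow, ha]
  have hu1 : Real.exp (-(2 * Real.log n / ((n : ℝ) - 1))) ≤ 1 := by
    rw [Real.exp_le_one_iff, neg_nonpos]
    positivity
  have hu2 : 1 - 2 * Real.log n / ((n : ℝ) - 1) ≤ Real.exp (-(2 * Real.log n / ((n : ℝ) - 1))) :=
    Real.one_sub_le_exp_neg _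
  have hinv : (1 : ℝ) / n ≤ 1 / ((n : ℝ) - 1) := one_div_le_one_div_of_le hm0 (by linarith)
  have hinv0 : (0 : ℝ) ≤ 1 / n := by positivity
  have hinv1 : (1 : ℝ) / n ≤ 1 := by rw [div_le_one hn0]; linarith
  have hv1 : (1 - 1 / (n : ℝ)) ^ 2 ≤ 1 := by nlinarith
  have hv2 : 1 - 2 * (1 / ((n : ℝ) - 1)) ≤ (1 - 1 / (n : ℝ)) ^ 2 := by nlinarith
  have hv0 : 0 ≤ (1 - 1 / (n : ℝ)) ^ 2 := sq_nonneg _
  have hu0 : 0 < Real.exp (-(2 * Real.log n / ((n : ℝ) - 1))) := Real.exp_pos _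
  rw [hin]
  constructor
  · exact mul_le_one₀ hu1 hv0 hv1
  · have e : (2 * Real.log n + 2) / ((n : ℝ) - 1) =
        2 * Real.log n / ((n : ℝ) - 1) + 2 * (1 / ((n : ℝ) - 1)) := by ring
    rw [e]
    nlinarith [mul_nonneg (sub_nonneg.mpr hu1) (sub_nonneg.mpr hv1)]

/-- explicit rate -/
theorem mb_rate' (n : ℕ) (hn : 3 ≤ n) : outR n ^ 2 - innR n ^ 2 ≤ 10 * Real.log n / (n - 1) := by
  obtain ⟨_, h1⟩ := mb_lim_out n hn
  obtain ⟨_, h2⟩ := mb_lim_inn n hn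
  have hn' : (3 : ℝ) ≤ n := by exact_mod_cast hn
  have hm0 : 0 < (n : ℝ) - 1 := by linarith
  have hl2 : Real.log 2 < 0.6931471808 := Real.log_two_lt_d9
  have hL : 1 < Real.log n := by
    rw [Real.lt_log_iff_exp_lt (by linarith)]
    have := Real.exp_one_lt_d9
    linarith
  have h3 : outR n ^ 2 - innR n ^ 2 ≤ (8 * Real.log 2 + 2 * Real.log n + 2) / ((n : ℝ) - 1) := by
    have e : (8 * Real.log 2 + 2 * Real.log n + 2) / ((n : ℝ) - 1) =
      8 * Real.log 2 / ((n : ℝ) - 1) + (2 * Real.log n + 2) / ((n : ℝ) - 1) := by ring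
    rw [e]; linarith
  refine h3.trans ?_
  apply div_le_div_of_nonneg_right _ hm0.le
  linarith

theorem mb_lim : Tendsto (fun n : ℕ => Real.pi * (outR n ^ 2 - innR n ^ 2)) atTop (𝓝 0) := by
  have h1 := Real.tendsto_pow_log_div_mul_add_atTop 1 (-1) 1 one_ne_zero
  have h2 : Tendsto (fun n : ℕ => Real.log (n : ℝ) ^ 1 / (1 * (n : ℝ) + -1)) atTop (𝓝 0) :=
    h1.comp tendsto_natCast_atTop_atTop
  have h3 : Tendsto (fun n : ℕ => Real.pi * (10 * (Real.log (n : ℝ) ^ 1 / (1 * (n : ℝ) + -1))))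
      atTop (𝓝 0) := by
    have := (h2.const_mul 10).const_mul Real.pi
    simpa using this
  refine tendsto_of_tendsto_of_tendsto_of_le_of_le' tendsto_const_nhds h3 ?_ ?_
  · filter_upwards [eventually_ge_atTop 3] with n hn
    obtain ⟨h4, _⟩ := mb_lim_out n hn
    obtain ⟨h5, _⟩ := mb_lim_inn n hn
    have := Real.pi_pos
    apply mul_nonneg this.le
    linarith
  · filter_upwards [eventually_ge_atTop 3] with n hn
    apply mul_le_mul_of_nonneg_left _ Real.pi_pos.le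
    have h4 := mb_rate' n hn
    have e : 10 * (Real.log (n : ℝ) ^ 1 / (1 * (n : ℝ) + -1)) = 10 * Real.log n / (n - 1) := by
      rw [pow_one, one_mul]; ring
    rw [e]
    exact h4
/-- explicit rate -/
theorem mb_rate (n : ℕ) (hn : 3 ≤ n) : outR n ^ 2 - innR n ^ 2 ≤ 10 * Real.log n / (n - 1) :=
  mb_rate' n hn


end Pool.Agent.Helper510.MB
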