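import Mathlib

set_option autoImplicit false

namespace Pool.Agent.Helper510.MB

section
/-- key inequality -/
theorem mb_alg (n : ℕ) (hn : 2 ≤ n) (t1 t2 : ℝ) (h2 : 0 < t2) (h12 : t2 < t1)
    (h : t1 * (1 + t2) ^ (n + 1) = t2 * (1 + t1) ^ (n + 1)) : (n : ℝ) ^ 2 * t1 * t2 < 1 := by
  by_contra hcon
  push Not at hcon
  have h1 : 0 < t1 := lt_trans h2 h12
  have hnR : (2:ℝ) ≤ n := by exact_mod_cast hn
  set q : ℝ := Real.sqrt (t1 * t2) with hq
  have hq0 : 0 < q := Real.sqrt_pos.mpr (mul_pos h1 h2)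
  have hqq : q * q = t1 * t2 := Real.mul_self_sqrt (mul_pos h1 h2).le
  have hnq : 1 ≤ n * q := by
    have : 1 ≤ (n * q) ^ 2 := by
      calc (1:ℝ) ≤ (n : ℝ) ^ 2 * t1 * t2 := hcon
        _ = (n * q) ^ 2 := by rw [mul_pow, sq q, hqq]; ring
    have h0 : 0 ≤ n * q := by positivity
    nlinarith
  set d : ℝ := (Real.log t1 - Real.log t2) / 2 with hd
  have hd0 : 0 < d := by
    have := Real.log_lt_log h2 h12
    rw [hd]; linarith
  have hlq : Real.log q = (Real.log t1 + Real.log t2) / 2 := by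
    rw [hq, Real.log_sqrt (mul_pos h1 h2).le, Real.log_mul h1.ne' h2.ne']
  have ht1 : t1 = q * Real.exp d := by
    rw [← Real.exp_log hq0, ← Real.exp_add, hlq, hd]
    have : (Real.log t1 + Real.log t2) / 2 + (Real.log t1 - Real.log t2) / 2 = Real.log t1 := by ring
    rw [this, Real.exp_log h1]
  have ht2 : t2 = q * Real.exp (-d) := by
    rw [← Real.exp_log hq0, ← Real.exp_add, hlq, hd]
    have : (Real.log t1 + Real.log t2) / 2 + -((Real.log t1 - Real.log t2) / 2) = Real.log t2 := by ring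
    rw [this, Real.exp_log h2]
  let R : ℝ → ℝ := fun x => ((n:ℝ) + 1) * (Real.log (1 + q * Real.exp x) - Real.log (1 + q * Real.exp (-x))) - 2 * x
  have hder : ∀ x, HasDerivAt R (((n:ℝ) + 1) * (q * Real.exp x / (1 + q * Real.exp x) - q * (Real.exp (-x) * (-1)) / (1 + q * Real.exp (-x))) - 2) x := by
    intro x
    have p1 : 1 + q * Real.exp x ≠ 0 := by positivity
    have p2 : 1 + q * Real.exp (-x) ≠ 0 := by positivity
    have e1 : HasDerivAt (fun x => 1 + q * Real.exp x) (q * Real.exp x) x :=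
      ((Real.hasDerivAt_exp x).const_mul q).const_add 1
    have e2 : HasDerivAt (fun x => 1 + q * Real.exp (-x)) (q * (Real.exp (-x) * (-1))) x := by
      have := (hasDerivAt_neg x).exp
      exact (this.const_mul q).const_add 1
    have l1 := e1.log p1
    have l2 := e2.log p2
    have h3 : HasDerivAt R (((n:ℝ) + 1) * (q * Real.exp x / (1 + q * Real.exp x) - q * (Real.exp (-x) * (-1)) / (1 + q * Real.exp (-x))) - 2 * 1) x :=
      ((l1.sub l2).const_mul ((n:ℝ) + 1)).sub ((hasDerivAt_id x).const_mul 2)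
    rw [mul_one] at h3
    exact h3
  have hmono : StrictMonoOn R (Set.Ici 0) := by
    apply strictMonoOn_of_deriv_pos (convex_Ici 0)
    · intro x _
      exact (hder x).continuousAt.continuousWithinAt
    · intro x hx
      rw [interior_Ici] at hx
      have hx0 : 0 < x := hx
      rw [(hder x).deriv]
      set E := Real.exp x with hE
      have hE1 : 1 < E := Real.one_lt_exp_iff.mpr hx0
      have hEF : E * Real.exp (-x) = 1 := by rw [hE, ← Real.exp_add]; simp
      set F := Real.exp (-x) with hF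
      have hF0 : 0 < F := Real.exp_pos _
      have hE0 : 0 < E := Real.exp_pos _
      have hs : 2 < E + F := by
        have hF1 : F < 1 := by nlinarith
        nlinarith [mul_pos (sub_pos.mpr hE1) (sub_pos.mpr hF1)]
      have hden : 0 < (1 + q * E) * (1 + q * F) := by positivity
      have heq : ((n:ℝ) + 1) * (q * E / (1 + q * E) - q * (F * (-1)) / (1 + q * F)) - 2 =
          (((n:ℝ) + 1) * (q * (E + F) + 2 * q ^ 2 * (E * F)) - 2 * (1 + q * (E + F) + q ^ 2 * (E * F))) / ((1 + q * E) * (1 + q * F)) := by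
        field_simp
        ring
      rw [heq, hEF]
      apply div_pos _ hden
      have a1 : 2 * ((n:ℝ) - 1) * q < ((n:ℝ) - 1) * q * (E + F) := by
        have : 0 < ((n:ℝ) - 1) * q := by apply mul_pos; linarith; exact hq0
        nlinarith
      have a2 : q ≤ n * q * q := by nlinarith
      nlinarith
  have hR0 : R 0 = 0 := by simp [R]
  have hRd : R d = 0 := by
    have hl := congrArg Real.log h
    rw [Real.log_mul h1.ne' (by positivity), Real.log_mul h2.ne' (by positivity), Real.log_pow, Real.log_pow] at hl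
    have hcast : ((n + 1 : ℕ) : ℝ) = (n:ℝ) + 1 := by push_cast; ring
    rw [hcast] at hl
    show ((n:ℝ) + 1) * (Real.log (1 + q * Real.exp d) - Real.log (1 + q * Real.exp (-d))) - 2 * d = 0
    rw [← ht1, ← ht2, hd]
    linarith
  have := hmono (Set.mem_Ici.mpr le_rfl) (Set.mem_Ici.mpr hd0.le) hd0
  rw [hR0, hRd] at this
  exact lt_irrefl _ this

end

section

/-- (may use mb_alg, proved elsewhere) a real two-cycle is attracting -/
theorem mb_mult (n : ℕ) (hn : 2 ≤ n) (a w1 w2 : ℝ) (ha : 0 < a) (h1 : 0 ≤ w1) (h12 : w1 < w2) (h2 : w2 ≤ 1)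
    (e2 : w2 = 1 - a * w1 ^ n) (e1 : w1 = 1 - a * w2 ^ n) :
    (n * a * w1 ^ (n - 1)) * (n * a * w2 ^ (n - 1)) < 1 := by
  obtain ⟨k, rfl⟩ : ∃ k, n = k + 1 := ⟨n - 1, by omega⟩
  have hk : k ≠ 0 := by omega
  rcases h1.eq_or_lt with h0 | h0
  · rw [← h0]
    simp [hk]
  · have hw2 : 0 < w2 := lt_trans h0 h12
    have ea : a * w1 ^ (k + 1) = 1 - w2 := by linarith
    have eb : a * w2 ^ (k + 1) = 1 - w1 := by linarith
    have hlt : 0 < 1 - w2 := by rw [← ea]; positivity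
    have key : (1 - w1) * w1 ^ (k + 1) = (1 - w2) * w2 ^ (k + 1) := by
      rw [← ea, ← eb]; ring
    have ht1 : 1 + (1 - w1) / w1 = 1 / w1 := by field_simp; ring
    have ht2 : 1 + (1 - w2) / w2 = 1 / w2 := by field_simp; ring
    have hm := mb_alg (k + 1) hn ((1 - w1) / w1) ((1 - w2) / w2) (by positivity)
      (by rw [div_lt_div_iff₀ hw2 h0]; nlinarith) (by
        rw [ht1, ht2, div_pow, div_pow, one_pow, div_mul_div_comm, div_mul_div_comm,
          div_eq_div_iff (by positivity) (by positivity)]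
        have e3 : w1 ^ (k + 1 + 1) = w1 ^ (k + 1) * w1 := pow_succ _ _
        have e4 : w2 ^ (k + 1 + 1) = w2 ^ (k + 1) * w2 := pow_succ _ _
        rw [e3, e4]
        calc (1 - w1) * 1 * (w2 * (w1 ^ (k + 1) * w1))
            = ((1 - w1) * w1 ^ (k + 1)) * (w1 * w2) := by ring
          _ = ((1 - w2) * w2 ^ (k + 1)) * (w1 * w2) := by rw [key]
          _ = (1 - w2) * 1 * (w1 * (w2 ^ (k + 1) * w2)) := by ring)
    have f1 : a * w1 ^ k = (1 - w2) / w1 := by
      rw [eq_div_iff h0.ne', ← ea]; ring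
    have f2 : a * w2 ^ k = (1 - w1) / w2 := by
      rw [eq_div_iff hw2.ne', ← eb]; ring
    have e5 : k + 1 - 1 = k := by omega
    rw [e5]
    calc (((k + 1 : ℕ) : ℝ) * a * w1 ^ k) * (((k + 1 : ℕ) : ℝ) * a * w2 ^ k)
        = ((k + 1 : ℕ) : ℝ) ^ 2 * (a * w2 ^ k) * (a * w1 ^ k) := by ring
      _ = ((k + 1 : ℕ) : ℝ) ^ 2 * ((1 - w1) / w2) * ((1 - w2) / w1) := by rw [f1, f2]
      _ = ((k + 1 : ℕ) : ℝ) ^ 2 * ((1 - w1) / w1) * ((1 - w2) / w2) := by ring
      _ < 1 := hm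

end

section
/-- existence of a fixed point w0 of `1 - a w^n`, attracting, or neutral, or otherwise a two-cycle -/
theorem mb_dich (n : ℕ) (hn : 2 ≤ n) (a : ℝ) (ha : 0 < a) (ha1 : a ≤ 1) :
    (∃ w : ℝ, 0 < w ∧ w ≤ 1 ∧ w = 1 - a * w ^ n ∧ n * a * w ^ (n - 1) < 1) ∨
    (∃ w1 w2 : ℝ, 0 ≤ w1 ∧ w1 < w2 ∧ w2 ≤ 1 ∧ w2 = 1 - a * w1 ^ n ∧ w1 = 1 - a * w2 ^ n) ∨
    a * (n / (n + 1) : ℝ) ^ n = 1 / (n + 1) := by
  have hn0 : n ≠ 0 := by omega
  have hnpos : (0:ℝ) < n := by exact_mod_cast (by omega : 0 < n)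
  obtain ⟨m, rfl⟩ : ∃ m, n = m + 1 := ⟨n - 1, by omega⟩
  have hc : ContinuousOn (fun w : ℝ => 1 - a * w ^ (m+1) - w) (Set.Icc 0 1) := by fun_prop
  have hivt := intermediate_value_Icc' (zero_le_one' ℝ) hc
  have h0mem : (0:ℝ) ∈ Set.Icc ((fun w : ℝ => 1 - a * w ^ (m+1) - w) 1) ((fun w : ℝ => 1 - a * w ^ (m+1) - w) 0) := by
    constructor
    · simp; linarith
    · simp
  obtain ⟨w0, ⟨hw0, hw01⟩, hw0eq⟩ := hivt h0mem
  simp only at hw0eq
  have hfix : w0 = 1 - a * w0 ^ (m+1) := by linarith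
  have hw0pos : 0 < w0 := by
    rcases hw0.lt_or_eq with h | h
    · exact h
    · rw [← h] at hw0eq; simp at hw0eq
  simp only [Nat.add_sub_cancel]
  rcases lt_trichotomy (((m+1 : ℕ) : ℝ) * a * w0 ^ m) 1 with h | h | h
  · left
    exact ⟨w0, hw0pos, hw01, hfix, h⟩
  · right; right
    have h1 : ((m+1 : ℕ) : ℝ) * (a * w0 ^ (m+1)) = w0 := by
      have : ((m+1 : ℕ) : ℝ) * (a * w0 ^ (m+1)) = (((m+1 : ℕ) : ℝ) * a * w0 ^ m) * w0 := by ring
      rw [this, h, one_mul]
    have h2 : a * w0 ^ (m+1) = 1 - w0 := by linarith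
    rw [h2] at h1
    have h3 : w0 = ((m+1 : ℕ) : ℝ) / (((m+1 : ℕ) : ℝ) + 1) := by
      field_simp
      linarith
    rw [← h3, h2, h3]
    field_simp
    ring
  · right; left
    set G : ℝ → ℝ := fun w => 1 - a * (1 - a * w ^ (m+1)) ^ (m+1) - w with hG
    have hGw0 : G w0 = 0 := by
      simp only [hG]; rw [← hfix]; linarith
    have hder : HasDerivAt G ((((m+1 : ℕ) : ℝ) * a * w0 ^ m) ^ 2 - 1) w0 := by
      have h1 : HasDerivAt (fun w : ℝ => 1 - a * w ^ (m+1)) (-(a * (((m+1 : ℕ) : ℝ) * w0 ^ m))) w0 := by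
        have := ((hasDerivAt_pow (m+1) w0).const_mul a).const_sub 1
        simpa using this
      have h2 := (((h1.pow (m+1)).const_mul a).const_sub 1).sub (hasDerivAt_id w0)
      have h3 : (((m+1 : ℕ) : ℝ) * a * w0 ^ m) ^ 2 - 1 = -(a * (((m+1 : ℕ) : ℝ) * (1 - a * w0 ^ (m+1)) ^ m * -(a * (((m+1 : ℕ) : ℝ) * w0 ^ m)))) - 1 := by
        rw [← hfix]; ring
      rw [h3]
      exact h2
    have hpos : 0 < (((m+1 : ℕ) : ℝ) * a * w0 ^ m) ^ 2 - 1 := by nlinarith
    have hsl := (hasDerivAt_iff_tendsto_slope.mp hder).eventually (lt_mem_nhds hpos)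
    have hsl2 : ∀ᶠ x in nhdsWithin w0 (Set.Iio w0), 0 < slope G w0 x :=
      hsl.filter_mono (nhdsWithin_mono _ (fun x hx => ne_of_lt hx))
    have hint : ∀ᶠ x in nhdsWithin w0 (Set.Iio w0), x ∈ Set.Ioo 0 w0 := Ioo_mem_nhdsLT hw0pos
    obtain ⟨x, hx1, hx2, hx3⟩ := (hsl2.and hint).exists
    have hGx : G x < 0 := by
      rw [slope_def_field, hGw0, sub_zero] at hx1
      have hneg : x - w0 < 0 := by linarith
      by_contra hcon
      push Not at hcon
      have := div_nonpos_of_nonneg_of_nonpos hcon hneg.le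
      linarith
    have hGc : ContinuousOn G (Set.Icc 0 x) := by
      simp only [hG]; fun_prop
    have h0m : (0:ℝ) ∈ Set.Icc (G x) (G 0) := by
      constructor
      · exact hGx.le
      · simp [hG]; linarith
    obtain ⟨w1, ⟨hw1a, hw1b⟩, hw1c⟩ := intermediate_value_Icc' hx2.le hGc h0m
    have hw1lt : w1 < w0 := lt_of_le_of_lt hw1b hx3
    have hpw : w1 ^ (m+1) < w0 ^ (m+1) := pow_lt_pow_left₀ hw1lt hw1a (by omega)
    have hp1 : 0 ≤ w1 ^ (m+1) := pow_nonneg hw1a _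
    refine ⟨w1, 1 - a * w1 ^ (m+1), hw1a, ?_, ?_, rfl, ?_⟩
    · nlinarith
    · nlinarith
    · simp only [hG] at hw1c; linarith

end


end Pool.Agent.Helper510.MB
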